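import Pool.Agent.Lib.H38LT.GB
import Pool.Agent.Lib.H90L.Local

/-!
MP_d8f466: the Lang-Silverman lower bound for the canonical height up to a power of the
prime-depleted Szpiro ratio, for all elliptic curves over a number field.
-/

set_option autoImplicit false

namespace Pool.Agent.Results.MP_d8f466_nt.DepletedSzpiro

open Pool.Agent.H38LS Pool.Agent.H38LT NumberField Height IsDedekindDomain Filter Topology

universe u

/-- All local targets (proved in `Pool.Agent.Lib.H90L`). -/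
theorem specs : Specs.{u} := by
  obtain ⟨_, h1, h2, h5, b1, b2, b3, d1, d2, e1⟩ := Pool.Agent.Lib.H90L.all.{u}
  exact ⟨h1, h2, h5, b1, b2, b3, d1, d2, e1⟩

/-- For every number field `K` there is `0 < c ≤ 1` such that for every elliptic curve `W` over `K`
and every point `P ∈ W(K)` of infinite order (all heights relative to `K`) the limit which defines the
canonical height exists and, for every finite set `S` of primes of `K`:
`ĥ(P) ≥ c ^ (#S + 1) (X/HH)³ s⁻² HH` for all integers `s ≥ 1`, where `X = XX W S s = ZS + TS(s)`, and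
in particular `ĥ(P) ≥ c ^ (#S + 1) σ⁻⁵ HH` for all real `σ ≥ 1` with `HH ≤ σ (ZS + RS)`.
Here `HH = max (log N(Δ)) (h(j))`, `Δ` the minimal discriminant, `ZS` is the part of the height at
infinity and at the primes of `S` (`hinf` and the sum of `ord_p(Δ) log N(p)`, `p ∈ S`), `RS` the
logarithm of the norm of the radical of the prime-to-`S` part of `Δ`, and `TS(s)` the part of `RS` at
the primes with `ord_p(Δ) ≤ s`. -/
theorem result (K : Type u) [Field K] [NumberField K] [DecidableEq K] :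
    ∃ c : ℝ, 0 < c ∧ c ≤ 1 ∧
      ∀ (W : WeierstrassCurve K) [W.IsElliptic] (P : W.toAffine.Point), ¬ IsOfFinAddOrder P →
        Tendsto (fun n : ℕ => xh ((2 ^ n : ℕ) • P) / (2 * 4 ^ n)) atTop (𝓝 (hhat P)) ∧
        ∀ S : Finset (HeightOneSpectrum (𝓞 K)),
          (∀ s : ℕ, 1 ≤ s →
            c ^ (S.card + 1) * (XX W S s / HH W) ^ 3 / (s : ℝ) ^ 2 * HH W ≤ hhat P) ∧
          ∀ σ : ℝ, 1 ≤ σ → HH W ≤ σ * (ZS W S + RS W S) →
            c ^ (S.card + 1) / σ ^ 5 * HH W ≤ hhat P := by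
  obtain ⟨c₂, hc₂, hc₂1, h₂⟩ := main_plus (K := K) specs
  obtain ⟨c₃, hc₃, hc₃1, h₃⟩ := main_XX4 (K := K) specs
  have hc : 0 < min c₂ c₃ := lt_min hc₂ hc₃
  refine ⟨min c₂ c₃, hc, (min_le_left _ _).trans hc₂1, fun W _ P hP => ?_⟩
  have hP' : ∀ n : ℤ, n ≠ 0 → n • P ≠ 0 := by
    intro n hn h0
    exact hP (isOfFinAddOrder_iff_zsmul_eq_zero.2 ⟨n, hn, h0⟩)
  have hH : 0 ≤ HH W := le_max_of_le_right (zero_le_logHeight₁ _)
  refine ⟨hhat_tendsto W P, fun S => ⟨fun s hs => ?_, fun σ hσ hHσ => ?_⟩⟩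
  · refine le_trans ?_ (h₃ W P hP' S s hs)
    have h4 : min c₂ c₃ ^ (S.card + 1) ≤ c₃ ^ (S.card + 1) :=
      pow_le_pow_left₀ hc.le (min_le_right _ _) _
    have h7 : 0 ≤ XX W S s := by
      unfold XX
      exact add_nonneg (ZS_nonneg W S) (TS_nonneg W S s)
    have h5 : 0 ≤ (XX W S s / HH W) ^ 3 := pow_nonneg (div_nonneg h7 hH) 3
    refine mul_le_mul_of_nonneg_right ?_ hH
    refine div_le_div_of_nonneg_right ?_ (by positivity)
    exact mul_le_mul_of_nonneg_right h4 h5
  · refine le_trans ?_ (h₂ W P hP' S σ hσ hHσ)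
    have h4 : min c₂ c₃ ^ (S.card + 1) ≤ c₂ ^ (S.card + 1) :=
      pow_le_pow_left₀ hc.le (min_le_left _ _) _
    have h5 : (0 : ℝ) ≤ σ ^ 5 := by positivity
    exact mul_le_mul_of_nonneg_right (div_le_div_of_nonneg_right h4 h5) hH

end Pool.Agent.Results.MP_d8f466_nt.DepletedSzpiro
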